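import Mathlib

/-!
# The Tribonacci Zeckendorf game

Player 2 has a winning strategy in the Tribonacci game on `n` for every `n ≥ 7`; for `n = 6`
he has none, so `7` is the least possible threshold.  The proof is a strategy-stealing argument
inside a diamond of eight positions near the start.
-/

set_option autoImplicit false

namespace Pool.Agent.Results.MP_7f8e47_co.TribonacciGame

open Multiset

/-- A position is a finite multiset of terms `S_i` (`i ≥ 1`); the term `S_i` is recorded by its
index `i`. -/
abbrev Position : Type := Multiset ℕ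

/-- The six rules of the Tribonacci game.  In each rule `p` is the untouched part of the
position. -/
inductive Move : Position → Position → Prop
  | r1 (p : Position) (i : ℕ) (hi : 3 ≤ i) : Move (p + {i - 2, i - 1, i}) (p + {i + 1})
  | r2 (p : Position) : Move (p + {1, 1, 2}) (p + {3})
  | r3 (p : Position) : Move (p + {1, 1}) (p + {2})
  | r4 (p : Position) : Move (p + {2, 2}) (p + {3})
  | r5 (p : Position) : Move (p + {3, 3}) (p + {4, 1})
  | r6 (p : Position) (i : ℕ) (hi : 4 ≤ i) : Move (p + {i, i}) (p + {i + 1, i - 3})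

/-- The starting position of the game on `n`: `n` copies of `S_1`. -/
def start (n : ℕ) : Position := replicate n 1

/-- The positions with Player 1 to move which can occur in the game on `n` when Player 2 answers
every position `q` left by Player 1 with `σ q`. -/
inductive Reach (σ : Position → Position) (n : ℕ) : Position → Prop
  | start : Reach σ n (start n)
  | step (p q : Position) (hp : Reach σ n p) (h : Move p q) : Reach σ n (σ q)

/-- Player 2 has a winning strategy in the game on `n`: a strategy `σ` for which, whatever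
Player 1 plays, Player 2 always has the legal answer `σ q` to the position `q` left by Player 1.
(As every play is finite, it is then Player 1 who first cannot move, so Player 2 makes the last
move.) -/
def Player2Wins (n : ℕ) : Prop :=
  ∃ σ : Position → Position, ∀ p q, Reach σ n p → Move p q → Move q (σ q)

/-! ### Termination -/

/-- number of terms plus sum of indices -/
def size (p : Position) : ℕ := card p + p.sum

lemma size_lt {p q : Position} (h : Move p q) : size q < size p := by
  cases h with
  | r1 p i hi => simp [size]; omega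
  | r2 p => simp [size]; omega
  | r3 p => simp [size]; omega
  | r4 p => simp [size]; omega
  | r5 p => simp [size]; omega
  | r6 p i hi => simp [size]; omega

lemma wf : WellFounded (fun q p : Position => Move p q) :=
  Subrelation.wf (r := InvImage (· < ·) size) (fun h => size_lt h) (InvImage.wf _ wellFounded_lt)

/-! ### Winning positions -/

/-- the player to move wins -/
inductive Win : Position → Prop
  | mk (p q : Position) (h : Move p q) (h' : ∀ r, Move q r → Win r) : Win p

lemma lose_of_not_win (p : Position) : ¬ Win p → ∀ q, Move p q → Win q := by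
  induction p using wf.induction with
  | _ p ih =>
    intro hp q hq
    by_contra h
    exact hp (Win.mk p q hq (ih q hq h))

lemma not_win_of_lose (p : Position) : (∀ q, Move p q → Win q) → ¬ Win p := by
  induction p using wf.induction with
  | _ p ih =>
    intro hp hw
    cases hw with
    | mk _ q h h' => exact ih q h h' (hp q h)

lemma Win.child {p : Position} (h : Win p) : ∃ q, Move p q ∧ ¬ Win q := by
  cases h with
  | mk _ q h h' => exact ⟨q, h, not_win_of_lose q h'⟩

lemma player2Wins_of_not_win (n : ℕ) (h : ¬ Win (start n)) : Player2Wins n := by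
  classical
  let σ : Position → Position := fun q =>
    if hq : ∃ r, Move q r ∧ ¬ Win r then Classical.choose hq else q
  have hσ : ∀ q, Win q → Move q (σ q) ∧ ¬ Win (σ q) := by
    intro q hq
    have e : ∃ r, Move q r ∧ ¬ Win r := hq.child
    have : σ q = Classical.choose e := by simp only [σ]; rw [dif_pos e]
    rw [this]
    exact Classical.choose_spec e
  have hr : ∀ p, Reach σ n p → ¬ Win p := by
    intro p hp
    induction hp with
    | start => exact h
    | step p q hp h ih => exact (hσ q (lose_of_not_win p ih q h)).2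
  exact ⟨σ, fun p q hp hm => (hσ q (lose_of_not_win p (hr p hp) q hm)).1⟩

/-! ### Inversion of moves -/

lemma move_cases {x q : Position} (h : Move x q) :
    (∃ p i, 3 ≤ i ∧ x = p + {i - 2, i - 1, i} ∧ q = p + {i + 1}) ∨
    (∃ p, x = p + {1, 1, 2} ∧ q = p + {3}) ∨
    (∃ p, x = p + {1, 1} ∧ q = p + {2}) ∨
    (∃ p, x = p + {2, 2} ∧ q = p + {3}) ∨
    (∃ p, x = p + {3, 3} ∧ q = p + {4, 1}) ∨
    (∃ p i, 4 ≤ i ∧ x = p + {i, i} ∧ q = p + {i + 1, i - 3}) := by
  cases h with
  | r1 p i hi => exact Or.inl ⟨p, i, hi, rfl, rfl⟩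
  | r2 p => exact Or.inr (Or.inl ⟨p, rfl, rfl⟩)
  | r3 p => exact Or.inr (Or.inr (Or.inl ⟨p, rfl, rfl⟩))
  | r4 p => exact Or.inr (Or.inr (Or.inr (Or.inl ⟨p, rfl, rfl⟩)))
  | r5 p => exact Or.inr (Or.inr (Or.inr (Or.inr (Or.inl ⟨p, rfl, rfl⟩))))
  | r6 p i hi => exact Or.inr (Or.inr (Or.inr (Or.inr (Or.inr ⟨p, i, hi, rfl, rfl⟩))))

/-- the position with `k` ones and the terms `s` -/
abbrev pos (k : ℕ) (s : Multiset ℕ) : Position := replicate k 1 + s

lemma count_one (k : ℕ) (s : Multiset ℕ) : count 1 (pos k s) = k + count 1 s := by simp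

/-- removal of two ones -/
lemma remove_ones {k : ℕ} {s p : Multiset ℕ} (hs : count 1 s = 0)
    (h : pos k s = p + {1, 1}) : ∃ k', k = k' + 2 ∧ p = pos k' s := by
  have h1 : k = count 1 p + 2 := by
    have := congrArg (count 1) h
    simpa [hs] using this
  refine ⟨count 1 p, h1, ?_⟩
  have h2 : pos k s = pos (count 1 p) s + {1, 1} := by
    rw [h1, pos, pos, replicate_add]
    have : (replicate 2 1 : Multiset ℕ) = {1, 1} := rfl
    rw [this, add_assoc, add_assoc, add_comm ({1, 1} : Multiset ℕ)]
  rw [h] at h2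
  exact add_right_cancel h2

lemma moves_start {n : ℕ} {q : Position} (h : Move (start n) q) :
    ∃ k, n = k + 2 ∧ q = pos k {2} := by
  have key : ∀ x, x ∈ start n → x = 1 := fun x hx => eq_of_mem_replicate hx
  rcases move_cases h with ⟨p, i, hi, e, -⟩ | ⟨p, e, -⟩ | ⟨p, e, e'⟩ | ⟨p, e, -⟩ | ⟨p, e, -⟩ |
    ⟨p, i, hi, e, -⟩
  · have := key i (by rw [e]; simp)
    omega
  · have := key 2 (by rw [e]; simp)
    omega
  · have e2 : pos n 0 = p + {1, 1} := by rw [← e]; simp [start]
    obtain ⟨k, hk, hp⟩ := remove_ones (by simp) e2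
    refine ⟨k, hk, ?_⟩
    rw [e', hp]
    simp
  · have := key 2 (by rw [e]; simp)
    omega
  · have := key 3 (by rw [e]; simp)
    omega
  · have := key i (by rw [e]; simp)
    omega

/-- the only move from `k` ones and one term `S_3` or `S_4` -/
lemma moves_single {k a : ℕ} (ha : a = 3 ∨ a = 4) {q : Position} (h : Move (pos k {a}) q) :
    ∃ k', k = k' + 2 ∧ q = pos k' {2, a} := by
  have key : ∀ x, x ∈ pos k {a} → x = 1 ∨ x = a := by
    intro x hx
    rcases mem_add.1 hx with hx | hx
    · exact Or.inl (eq_of_mem_replicate hx)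
    · exact Or.inr (mem_singleton.1 hx)
  have hc : ∀ x, x ≠ 1 → count x (pos k {a}) ≤ 1 := by
    intro x hx
    simp only [pos, count_add]
    rw [count_replicate, if_neg (Ne.symm hx), zero_add]
    rw [count_singleton]
    split_ifs <;> omega
  rcases move_cases h with ⟨p, i, hi, e, -⟩ | ⟨p, e, -⟩ | ⟨p, e, e'⟩ | ⟨p, e, -⟩ | ⟨p, e, -⟩ |
    ⟨p, i, hi, e, -⟩
  · have h1 := key i (by rw [e]; simp)
    have h2 := key (i - 1) (by rw [e]; simp)
    omega
  · have := key 2 (by rw [e]; simp)
    omega
  · obtain ⟨k', hk, hp⟩ := remove_ones (by rcases ha with rfl | rfl <;> simp) e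
    refine ⟨k', hk, ?_⟩
    rw [e', hp, pos, pos, add_assoc]
    congr 1
    rw [add_comm]
    rfl
  · have := key 2 (by rw [e]; simp)
    omega
  · have := hc 3 (by norm_num)
    rw [e] at this
    simp at this
  · have := hc i (by omega)
    rw [e] at this
    simp at this

/-- the moves from `k` ones and two terms `S_3` -/
lemma moves_33 {k : ℕ} {q : Position} (h : Move (pos k {3, 3}) q) :
    q = pos (k + 1) {4} ∨ ∃ k', k = k' + 2 ∧ q = pos k' {2, 3, 3} := by
  have key : ∀ x, x ∈ pos k {3, 3} → x = 1 ∨ x = 3 := by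
    intro x hx
    rcases mem_add.1 hx with hx | hx
    · exact Or.inl (eq_of_mem_replicate hx)
    · right
      simpa using hx
  rcases move_cases h with ⟨p, i, hi, e, -⟩ | ⟨p, e, -⟩ | ⟨p, e, e'⟩ | ⟨p, e, -⟩ | ⟨p, e, e'⟩ |
    ⟨p, i, hi, e, -⟩
  · have h1 := key i (by rw [e]; simp)
    have h2 := key (i - 1) (by rw [e]; simp)
    omega
  · have := key 2 (by rw [e]; simp)
    omega
  · right
    obtain ⟨k', hk, hp⟩ := remove_ones (by simp) e
    refine ⟨k', hk, ?_⟩
    rw [e', hp, pos, pos, add_assoc]
    congr 1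
    rw [add_comm]
    rfl
  · have := key 2 (by rw [e]; simp)
    omega
  · left
    have hp : replicate k 1 = p := add_right_cancel e
    rw [e', ← hp, pos, replicate_succ, ← singleton_add]
    have : ({4, 1} : Multiset ℕ) = {1} + {4} := by decide
    rw [this, ← add_assoc, add_comm (replicate k 1) {1}]
  · have := key i (by rw [e]; simp)
    omega

/-! ### The moves used -/

lemma pos_split (k j : ℕ) (s : Multiset ℕ) : pos (k + j) s = pos k (replicate j 1 + s) := by
  rw [pos, pos, replicate_add, add_assoc]

lemma m1 (k : ℕ) : Move (pos (k + 2) {2}) (pos k {3}) := by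
  rw [pos_split]
  exact Move.r2 _

lemma m2 (k : ℕ) : Move (pos (k + 1) {2, 3}) (pos k {4}) := by
  rw [pos_split]
  exact Move.r1 (replicate k 1) 3 le_rfl

lemma m3 (k : ℕ) : Move (pos (k + 2) {2, 3}) (pos k {3, 3}) := by
  have h := Move.r2 (replicate k 1 + {3})
  have e1 : replicate k 1 + {3} + ({1, 1, 2} : Multiset ℕ) = pos (k + 2) {2, 3} := by
    rw [pos_split, add_assoc]
    congr 1
    decide
  have e2 : replicate k 1 + {3} + ({3} : Multiset ℕ) = pos k {3, 3} := by
    rw [add_assoc]
    rfl
  rwa [e1, e2] at h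

lemma m4 (k : ℕ) : Move (pos k {2, 3, 3}) (pos (k + 1) {2, 4}) := by
  have h := Move.r5 (replicate k 1 + {2})
  have e1 : replicate k 1 + {2} + ({3, 3} : Multiset ℕ) = pos k {2, 3, 3} := by
    rw [add_assoc]
    rfl
  have e2 : replicate k 1 + {2} + ({4, 1} : Multiset ℕ) = pos (k + 1) {2, 4} := by
    rw [pos_split, add_assoc]
    congr 1
    decide
  rwa [e1, e2] at h

/-- strategy stealing -/
lemma not_win_start {n : ℕ} (hn : 7 ≤ n) : ¬ Win (start n) := by
  intro h
  obtain ⟨m, rfl⟩ : ∃ m, n = m + 7 := ⟨n - 7, by omega⟩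
  -- `S_2` is lost for the player to move
  obtain ⟨q, hq, hq'⟩ := h.child
  obtain ⟨k, hk, rfl⟩ := moves_start hq
  obtain rfl : k = m + 5 := by omega
  -- `S_3` is won
  have w3 : Win (pos (m + 3) {3}) := lose_of_not_win _ hq' _ (m1 (m + 3))
  obtain ⟨q, hq2, hq2'⟩ := w3.child
  obtain ⟨k, hk, rfl⟩ := moves_single (Or.inl rfl) hq2
  obtain rfl : k = m + 1 := by omega
  -- `S_4` is won
  have w4 : Win (pos m {4}) := lose_of_not_win _ hq2' _ (m2 m)
  obtain ⟨q, hq3, hq3'⟩ := w4.child
  obtain ⟨k, hk, rfl⟩ := moves_single (Or.inr rfl) hq3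
  obtain rfl : m = k + 2 := hk
  -- `S_3, S_3` is won
  have w33 : Win (pos (k + 1) {3, 3}) := lose_of_not_win _ hq2' _ (m3 (k + 1))
  obtain ⟨q, hq4, hq4'⟩ := w33.child
  rcases moves_33 hq4 with rfl | ⟨j, hj, rfl⟩
  · exact hq4' w4
  · obtain rfl : k = j + 1 := by omega
    exact hq3' (lose_of_not_win _ hq4' _ (m4 j))

/-! ### The game on six -/

lemma no_move_23 (q : Position) : ¬ Move {2, 3} q := by
  intro h
  have key : ∀ x, x ∈ ({2, 3} : Multiset ℕ) → x = 2 ∨ x = 3 := by
    intro x hx
    simpa using hx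
  rcases move_cases h with ⟨p, i, hi, e, -⟩ | ⟨p, e, -⟩ | ⟨p, e, -⟩ | ⟨p, e, -⟩ | ⟨p, e, -⟩ |
    ⟨p, i, hi, e, -⟩
  · have h1 := key i (by rw [e]; simp)
    have h2 := key (i - 2) (by rw [e]; simp)
    omega
  · have := key 1 (by rw [e]; simp)
    omega
  · have := key 1 (by rw [e]; simp)
    omega
  · have := congrArg (count 2) e
    simp at this
  · have := congrArg (count 3) e
    simp at this
  · have := key i (by rw [e]; simp)
    omega

/-- every answer of Player 2 to the first move of the game on six lets Player 1 reach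
`{S_2, S_3}` -/
lemma reach_23 {r : Position} (h : Move (pos 4 {2}) r) : Move r {2, 3} := by
  have key : ∀ x, x ∈ pos 4 {2} → x = 1 ∨ x = 2 := by
    intro x hx
    rcases mem_add.1 hx with hx | hx
    · exact Or.inl (eq_of_mem_replicate hx)
    · exact Or.inr (mem_singleton.1 hx)
  rcases move_cases h with ⟨p, i, hi, e, -⟩ | ⟨p, e, e'⟩ | ⟨p, e, e'⟩ | ⟨p, e, -⟩ | ⟨p, e, -⟩ |
    ⟨p, i, hi, e, -⟩
  · have h1 := key i (by rw [e]; simp)
    omega
  · have hp : p = {1, 1} := by
      have e2 : pos 4 {2} = ({1, 1} : Multiset ℕ) + {1, 1, 2} := by decide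
      rw [e2] at e
      exact (add_right_cancel e).symm
    rw [e', hp]
    have := Move.r3 {3}
    have e3 : ({3} : Multiset ℕ) + {1, 1} = {1, 1} + {3} := by decide
    have e4 : ({3} : Multiset ℕ) + {2} = {2, 3} := by decide
    rwa [e3, e4] at this
  · have hp : p = {1, 1, 2} := by
      have e2 : pos 4 {2} = ({1, 1, 2} : Multiset ℕ) + {1, 1} := by decide
      rw [e2] at e
      exact (add_right_cancel e).symm
    rw [e', hp]
    have := Move.r2 {2}
    have e3 : ({2} : Multiset ℕ) + {1, 1, 2} = {1, 1, 2} + {2} := by decide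
    have e4 : ({2} : Multiset ℕ) + {3} = {2, 3} := by decide
    rwa [e3, e4] at this
  · have := congrArg (count 2) e
    simp at this
  · have := key 3 (by rw [e]; simp)
    omega
  · have := key i (by rw [e]; simp)
    omega

lemma not_player2Wins_six : ¬ Player2Wins 6 := by
  rintro ⟨σ, hσ⟩
  have h0 : Move (start 6) (pos 4 {2}) := by
    have := Move.r3 (replicate 4 1)
    exact this
  have h1 := hσ _ _ Reach.start h0
  have h2 : Reach σ 6 (σ (pos 4 {2})) := Reach.step _ _ Reach.start h0
  exact no_move_23 _ (hσ _ _ h2 (reach_23 h1))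

/-- In the Tribonacci game every play is finite, Player 2 has a winning strategy in the game on
`n` for every `n ≥ 7`, and he has none in the game on `6`. -/
theorem result :
    WellFounded (fun q p : Position => Move p q) ∧
      (∀ n : ℕ, 7 ≤ n → Player2Wins n) ∧ ¬ Player2Wins 6 :=
  ⟨wf, fun n hn => player2Wins_of_not_win n (not_win_start hn), not_player2Wins_six⟩

end Pool.Agent.Results.MP_7f8e47_co.TribonacciGame
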